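import Mathlib

set_option autoImplicit false

open Filter Topology Set

namespace Pool.Agent.MP_a87fbc_pr

/-- squared average -/
noncomputable def sqStep (F : ℝ → ℝ) (t : ℝ) : ℝ := ((F (t - 1) + F (t + 1)) / 2) ^ 2

/-- dual of the squared average -/
noncomputable def coStep (F : ℝ → ℝ) (t : ℝ) : ℝ := 1 - (1 - (F (t - 1) + F (t + 1)) / 2) ^ 2

/-- the inverse of `p ↦ 2 √p - p` -/
noncomputable def jf (x : ℝ) : ℝ := (1 - Real.sqrt (1 - x)) ^ 2

def Unit01 (F : ℝ → ℝ) : Prop := ∀ t, F t ∈ Icc (0 : ℝ) 1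

def Sub (S : ℝ → ℝ) : Prop := ∀ t, S (t + 1) ≤ sqStep S t

lemma Unit01.sqStep {F : ℝ → ℝ} (h : Unit01 F) : Unit01 (sqStep F) := fun t => by
  obtain ⟨a1, a2⟩ := h (t - 1); obtain ⟨b1, b2⟩ := h (t + 1)
  unfold MP_a87fbc_pr.sqStep
  constructor <;> nlinarith

lemma Unit01.coStep {F : ℝ → ℝ} (h : Unit01 F) : Unit01 (coStep F) := fun t => by
  obtain ⟨a1, a2⟩ := h (t - 1); obtain ⟨b1, b2⟩ := h (t + 1)
  unfold MP_a87fbc_pr.coStep
  constructor <;> nlinarith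

lemma sq_mono {a b c d : ℝ} (ha : 0 ≤ a) (hb : 0 ≤ b) (h1 : a ≤ c) (h2 : b ≤ d) :
    ((a + b) / 2) ^ 2 ≤ ((c + d) / 2) ^ 2 := by
  apply pow_le_pow_left₀ <;> linarith

lemma co_mono {a b c d : ℝ} (hc : c ≤ 1) (hd : d ≤ 1) (h1 : a ≤ c) (h2 : b ≤ d) :
    1 - (1 - (a + b) / 2) ^ 2 ≤ 1 - (1 - (c + d) / 2) ^ 2 := by
  have : (1 - (c + d) / 2) ^ 2 ≤ (1 - (a + b) / 2) ^ 2 := by
    apply pow_le_pow_left₀ <;> linarith
  linarith

lemma sub_iff {S : ℝ → ℝ} : Sub S ↔ ∀ t, coStep S t ≤ S (t - 1) := by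
  refine forall_congr' fun t => ?_
  unfold sqStep coStep
  constructor <;> intro h <;> nlinarith

lemma Sub.sqStep {S : ℝ → ℝ} (hu : Unit01 S) (h : Sub S) : Sub (sqStep S) := fun t => by
  have h1 := h (t - 1); have h2 := h (t + 1)
  have e : t + 1 - 1 = t - 1 + 1 := by ring
  have e2 : MP_a87fbc_pr.sqStep S (t + 1) = ((S (t - 1 + 1) + S (t + 1 + 1)) / 2) ^ 2 := by
    rw [← e]; rfl
  rw [e2]
  exact sq_mono (hu _).1 (hu _).1 h1 h2

lemma Sub.coStep {S : ℝ → ℝ} (hu : Unit01 S) (h : Sub S) : Sub (coStep S) := by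
  rw [sub_iff] at h ⊢
  intro t
  have h1 := h (t - 1); have h2 := h (t + 1)
  have e : t + 1 - 1 = t - 1 + 1 := by ring
  rw [e] at h2
  conv_lhs => unfold MP_a87fbc_pr.coStep
  conv_rhs => unfold MP_a87fbc_pr.coStep
  exact co_mono (hu _).2 (hu _).2 h1 h2

lemma jf_mem {x : ℝ} (hx : x ∈ Icc (0 : ℝ) 1) : jf x ∈ Icc (0 : ℝ) 1 := by
  have h1 := Real.sqrt_nonneg (1 - x)
  have h2 : Real.sqrt (1 - x) ≤ 1 := Real.sqrt_le_one.mpr (by linarith [hx.1])
  unfold jf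
  constructor <;> nlinarith

lemma jf_strict {x y : ℝ} (hx : 0 ≤ x) (hxy : x < y) (hy : y ≤ 1) : jf x < jf y := by
  have h2 : Real.sqrt (1 - x) ≤ 1 := Real.sqrt_le_one.mpr (by linarith)
  have h3 : Real.sqrt (1 - y) < Real.sqrt (1 - x) := Real.sqrt_lt_sqrt (by linarith) (by linarith)
  unfold jf
  nlinarith

lemma jf_mono {x y : ℝ} (hx : 0 ≤ x) (hxy : x ≤ y) (hy : y ≤ 1) : jf x ≤ jf y := by
  rcases hxy.eq_or_lt with rfl | h
  · exact le_rfl
  · exact (jf_strict hx h hy).le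

lemma jf_le_sq {x : ℝ} (hx : x ∈ Icc (0 : ℝ) 1) : jf x ≤ x ^ 2 := by
  have h2 : Real.sqrt (1 - x) ≤ 1 := Real.sqrt_le_one.mpr (by linarith [hx.1])
  have h3 : 1 - x ≤ Real.sqrt (1 - x) := Real.le_sqrt_of_sq_le (by nlinarith [hx.1, hx.2])
  unfold jf
  apply pow_le_pow_left₀ <;> linarith

lemma jf_scale {x l : ℝ} (hx : x ∈ Icc (0 : ℝ) 1) (hl : l ∈ Icc (0 : ℝ) 1) :
    jf (l * x) ≤ l * jf x := by
  obtain ⟨x0, x1⟩ := hx; obtain ⟨l0, l1⟩ := hl
  have h1 := Real.sqrt_nonneg (1 - x)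
  have h2 : Real.sqrt (1 - x) ≤ 1 := Real.sqrt_le_one.mpr (by linarith)
  have hq : Real.sqrt (1 - x) ^ 2 = 1 - x := Real.sq_sqrt (by linarith)
  have hlx : 0 ≤ l * x := mul_nonneg l0 x0
  have h3 : Real.sqrt (1 - l * x) ≤ 1 := Real.sqrt_le_one.mpr (by linarith)
  set s := Real.sqrt (1 - x)
  have h4 : 1 - l * (1 - s) ≤ Real.sqrt (1 - l * x) := by
    apply Real.le_sqrt_of_sq_le
    have : x = 1 - s ^ 2 := by linarith
    rw [this]
    nlinarith [mul_nonneg (mul_nonneg l0 (sub_nonneg.2 l1)) (sq_nonneg (1 - s))]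
  unfold jf
  calc (1 - Real.sqrt (1 - l * x)) ^ 2 ≤ (l * (1 - s)) ^ 2 := by
        apply pow_le_pow_left₀ <;> linarith
    _ ≤ l * (1 - s) ^ 2 := by
        nlinarith [mul_nonneg (mul_nonneg l0 (sub_nonneg.2 l1)) (sq_nonneg (1 - s))]

lemma jf_diag {x : ℝ} (hx : x ∈ Icc (0 : ℝ) 1) :
    jf ((1 - x / 2) * x) ≤ 1 - (1 - (x / 2) ^ 2 / 2) ^ 2 := by
  obtain ⟨x0, x1⟩ := hx
  have h3 : Real.sqrt (1 - (1 - x / 2) * x) ≤ 1 := Real.sqrt_le_one.mpr (by nlinarith)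
  have hx3 : 0 ≤ x ^ 3 := by positivity
  have hx3' : x ^ 3 ≤ x ^ 2 := by nlinarith
  have h4 : 1 - (x / 2 - x ^ 3 / 32) ≤ Real.sqrt (1 - (1 - x / 2) * x) := by
    apply Real.le_sqrt_of_sq_le
    have : (x / 2 - x ^ 3 / 32) ^ 2 ≤ (x / 2) ^ 2 := by
      apply pow_le_pow_left₀ <;> nlinarith
    nlinarith
  unfold jf
  calc (1 - Real.sqrt (1 - (1 - x / 2) * x)) ^ 2 ≤ (x / 2 - x ^ 3 / 32) ^ 2 := by
        apply pow_le_pow_left₀ <;> linarith
    _ ≤ _ := by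
      have : x ^ 6 ≤ x ^ 4 := pow_le_pow_of_le_one x0 x1 (by norm_num)
      have : 0 ≤ x ^ 4 := by positivity
      nlinarith

lemma le_jf {x z : ℝ} (hx : x ∈ Icc (0 : ℝ) 1) (hz : z ∈ Icc (0 : ℝ) 1)
    (h : z ≤ ((x + z) / 2) ^ 2) : z ≤ jf x := by
  obtain ⟨x0, x1⟩ := hx; obtain ⟨z0, z1⟩ := hz
  have hq : Real.sqrt z ^ 2 = z := Real.sq_sqrt z0
  have h1 := Real.sqrt_nonneg z
  have h2 : Real.sqrt z ≤ (x + z) / 2 := Real.sqrt_le_iff.2 ⟨by linarith, h⟩
  have h3 : Real.sqrt z ≤ 1 := Real.sqrt_le_one.mpr z1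
  have h4 : Real.sqrt (1 - x) ≤ 1 - Real.sqrt z := Real.sqrt_le_iff.2 ⟨by linarith, by nlinarith⟩
  unfold jf
  rw [← hq]
  apply pow_le_pow_left₀ <;> linarith

lemma jf_le {x z : ℝ} (hx : x ∈ Icc (0 : ℝ) 1) (hz : z ∈ Icc (0 : ℝ) 1)
    (h : ((x + z) / 2) ^ 2 ≤ z) : jf x ≤ z := by
  obtain ⟨x0, x1⟩ := hx; obtain ⟨z0, z1⟩ := hz
  have hq : Real.sqrt z ^ 2 = z := Real.sq_sqrt z0
  have h2 : (x + z) / 2 ≤ Real.sqrt z := Real.le_sqrt_of_sq_le h
  have h3 : Real.sqrt (1 - x) ≤ 1 := Real.sqrt_le_one.mpr (by linarith)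
  have h4 : 1 - Real.sqrt z ≤ Real.sqrt (1 - x) := Real.le_sqrt_of_sq_le (by nlinarith)
  unfold jf
  rw [← hq]
  apply pow_le_pow_left₀ <;> linarith

lemma sq_of_le_jf {x z : ℝ} (hx : x ∈ Icc (0 : ℝ) 1) (hz : z ∈ Icc (0 : ℝ) 1)
    (h : z ≤ jf x) : z ≤ ((x + z) / 2) ^ 2 := by
  obtain ⟨x0, x1⟩ := hx; obtain ⟨z0, z1⟩ := hz
  have hq : Real.sqrt z ^ 2 = z := Real.sq_sqrt z0
  have hq' : Real.sqrt (1 - x) ^ 2 = 1 - x := Real.sq_sqrt (by linarith)
  have h1 := Real.sqrt_nonneg z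
  have h1' := Real.sqrt_nonneg (1 - x)
  have h3 : Real.sqrt (1 - x) ≤ 1 := Real.sqrt_le_one.mpr (by linarith)
  have h4 : Real.sqrt z ≤ 1 - Real.sqrt (1 - x) := Real.sqrt_le_iff.2 ⟨by linarith, h⟩
  have h5 : Real.sqrt (1 - x) ^ 2 ≤ (1 - Real.sqrt z) ^ 2 := by
    apply pow_le_pow_left₀ <;> linarith
  conv_lhs => rw [← hq]
  apply pow_le_pow_left₀ h1
  nlinarith

lemma iter_mem (k : ℕ) {x : ℝ} (hx : x ∈ Icc (0 : ℝ) 1) : jf^[k] x ∈ Icc (0 : ℝ) 1 := by
  induction k with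
  | zero => exact hx
  | succ k ih => rw [Function.iterate_succ_apply']; exact jf_mem ih

lemma iter_strict (k : ℕ) {x y : ℝ} (hx : 0 ≤ x) (hxy : x < y) (hy : y ≤ 1) :
    jf^[k] x < jf^[k] y := by
  induction k with
  | zero => exact hxy
  | succ k ih =>
    simp only [Function.iterate_succ_apply']
    exact jf_strict (iter_mem k ⟨hx, by linarith⟩).1 ih (iter_mem k ⟨by linarith, hy⟩).2

lemma iter_mono (k : ℕ) {x y : ℝ} (hx : 0 ≤ x) (hxy : x ≤ y) (hy : y ≤ 1) :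
    jf^[k] x ≤ jf^[k] y := by
  rcases hxy.eq_or_lt with rfl | h
  · exact le_rfl
  · exact (iter_strict k hx h hy).le

lemma iter_le_pow (k : ℕ) {x : ℝ} (hx : x ∈ Icc (0 : ℝ) 1) : jf^[k] x ≤ x ^ (k + 1) := by
  induction k with
  | zero => simp
  | succ k ih =>
    rw [Function.iterate_succ_apply']
    have h0 := (iter_mem k hx).1
    have h1 : x ^ (k + 1) ≤ x := by
      simpa using pow_le_pow_of_le_one hx.1 hx.2 (show 1 ≤ k + 1 by omega)
    calc jf (jf^[k] x) ≤ (jf^[k] x) ^ 2 := jf_le_sq (iter_mem k hx)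
      _ ≤ x ^ (k + 1) * x := by rw [sq]; exact mul_le_mul ih (ih.trans h1) h0 (pow_nonneg hx.1 _)
      _ = x ^ (k + 1 + 1) := by ring

lemma iter_scale (k : ℕ) {x l : ℝ} (hx : x ∈ Icc (0 : ℝ) 1) (hl : l ∈ Icc (0 : ℝ) 1) :
    jf^[k] (l * x) ≤ l * jf^[k] x := by
  have hlx : l * x ∈ Icc (0 : ℝ) 1 := ⟨mul_nonneg hl.1 hx.1, mul_le_one₀ hl.2 hx.1 hx.2⟩
  induction k with
  | zero => simp
  | succ k ih =>
    simp only [Function.iterate_succ_apply']
    have hk := iter_mem k hx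
    exact (jf_mono (iter_mem k hlx).1 ih (mul_le_one₀ hl.2 hk.1 hk.2)).trans (jf_scale hk hl)

lemma Sub.le_jf {S : ℝ → ℝ} (hu : Unit01 S) (h : Sub S) (t : ℝ) : S (t + 2) ≤ jf (S t) := by
  have := h (t + 1)
  unfold MP_a87fbc_pr.sqStep at this
  rw [show t + 1 + 1 = t + 2 by ring, show t + 1 - 1 = t by ring] at this
  exact MP_a87fbc_pr.le_jf (hu _) (hu _) this

lemma le_iter {S : ℝ → ℝ} (hu : Unit01 S) (h : ∀ t, S (t + 2) ≤ jf (S t)) (t : ℝ) (k : ℕ) :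
    S (t + 2 * k) ≤ jf^[k] (S t) := by
  induction k with
  | zero => simp
  | succ k ih =>
    rw [Function.iterate_succ_apply', show t + 2 * ((k + 1 : ℕ) : ℝ) = t + 2 * k + 2 by
      push_cast; ring]
    exact (h _).trans (jf_mono (hu _).1 ih (iter_mem k (hu t)).2)

lemma diag {S : ℝ → ℝ} (hu : Unit01 S) (t : ℝ) {z : ℝ} (hz : 0 ≤ z) (h : z ≤ S t) :
    jf ((1 - z / 2) * z) ≤ coStep (sqStep S) (t + 2) := by
  refine (jf_diag ⟨hz, h.trans (hu t).2⟩).trans ?_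
  have h1 : (z / 2) ^ 2 ≤ sqStep S (t + 2 - 1) := by
    unfold sqStep
    rw [show t + 2 - 1 - 1 = t by ring]
    simpa using sq_mono hz le_rfl h (hu (t + 2 - 1 + 1)).1
  have := co_mono (hu.sqStep _).2 (hu.sqStep (t + 2 + 1)).2 h1 (hu.sqStep (t + 2 + 1)).1
  simpa [coStep] using this

/-- An orbit of the two-step recursion. -/
structure Orbit (S : ℕ → ℝ → ℝ) : Prop where
  unit0 : Unit01 (S 0)
  sub0 : Sub (S 0)
  step : ∀ n, S (n + 1) = coStep (sqStep (S n))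

lemma Orbit.unit {S : ℕ → ℝ → ℝ} (h : Orbit S) (n : ℕ) : Unit01 (S n) := by
  induction n with
  | zero => exact h.unit0
  | succ n ih => rw [h.step]; exact ih.sqStep.coStep

lemma Orbit.sub {S : ℕ → ℝ → ℝ} (h : Orbit S) (n : ℕ) : Sub (S n) := by
  induction n with
  | zero => exact h.sub0
  | succ n ih => rw [h.step]; exact (ih.sqStep (h.unit n)).coStep (h.unit n).sqStep

/-- trapping along a diagonal -/
lemma Orbit.trap {S : ℕ → ℝ → ℝ} (h : Orbit S) {t y q d : ℝ} {K N : ℕ} (hy : 0 ≤ y) (hq : y ≤ q)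
    (hq1 : q < 1) (hd : q ^ (K + 1) ≤ d * (1 - q)) (hd1 : d ≤ 1)
    (hS : jf^[K] y ≤ S N (t + 2 * K)) (i : ℕ) : y * (1 - d) ≤ S (N + i) t := by
  have q0 : 0 ≤ q := hy.trans hq
  have d0 : 0 ≤ d := by
    by_contra hc
    have : d * (1 - q) < 0 := mul_neg_of_neg_of_pos (not_le.1 hc) (by linarith)
    linarith [pow_nonneg q0 (K + 1)]
  have hmem : ∀ i : ℕ, 0 ≤ y * (1 - d + d * q ^ i) ∧ y * (1 - d + d * q ^ i) ≤ y := fun i => by
    have a1 : 0 ≤ q ^ i := pow_nonneg q0 i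
    have a2 : q ^ i ≤ 1 := pow_le_one₀ q0 hq1.le
    have a3 : 0 ≤ d * q ^ i := mul_nonneg d0 a1
    have a4 : d * q ^ i ≤ d := by nlinarith
    constructor
    · exact mul_nonneg hy (by linarith)
    · nlinarith
  have key : ∀ i : ℕ, jf^[K + i] (y * (1 - d + d * q ^ i)) ≤ S (N + i) (t + 2 * (K + i : ℕ)) := by
    intro i
    induction i with
    | zero => simpa using hS
    | succ i ih =>
      obtain ⟨m0, m1⟩ := hmem i
      obtain ⟨n0, n1⟩ := hmem (i + 1)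
      set w := y * (1 - d + d * q ^ i) with hw
      have wm : w ∈ Icc (0 : ℝ) 1 := ⟨m0, by linarith⟩
      have zm := iter_mem (K + i) wm
      set z := jf^[K + i] w with hz
      have z1 : z ≤ q ^ (K + i + 1) :=
        (iter_le_pow _ wm).trans (pow_le_pow_left₀ m0 (m1.trans hq) _)
      have lm : 1 - z / 2 ∈ Icc (0 : ℝ) 1 := ⟨by linarith [zm.2], by linarith [zm.1]⟩
      have hdg := diag (h.unit (N + i)) _ zm.1 ih
      rw [← h.step, show t + 2 * ((K + i : ℕ) : ℝ) + 2 = t + 2 * ((K + (i + 1) : ℕ) : ℝ) by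
        push_cast; ring] at hdg
      refine le_trans ?_ hdg
      rw [show K + (i + 1) = (K + i) + 1 by ring, Function.iterate_succ_apply']
      have hw' : y * (1 - d + d * q ^ (i + 1)) ≤ (1 - z / 2) * w := by
        have e1 : q ^ (K + i + 1) ≤ d * q ^ i - d * q ^ (i + 1) := by
          calc q ^ (K + i + 1) = q ^ (K + 1) * q ^ i := by ring
            _ ≤ d * (1 - q) * q ^ i := mul_le_mul_of_nonneg_right hd (pow_nonneg q0 i)
            _ = _ := by ring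
        have e2 : z * w ≤ z * y := mul_le_mul_of_nonneg_left m1 zm.1
        have e3 : z * y ≤ (d * q ^ i - d * q ^ (i + 1)) * y :=
          mul_le_mul_of_nonneg_right (z1.trans e1) hy
        have e4 : 0 ≤ z * w := mul_nonneg zm.1 m0
        rw [hw] at e2 e4 ⊢
        nlinarith
      have hlw : (1 - z / 2) * w ≤ 1 := mul_le_one₀ lm.2 wm.1 wm.2
      refine jf_mono (iter_mem _ ⟨n0, by linarith⟩).1
        ((iter_mono _ n0 hw' hlw).trans (iter_scale _ wm lm)) (mul_le_one₀ lm.2 zm.1 zm.2)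
  have h1 := (key i).trans (le_iter (h.unit (N + i)) ((h.sub _).le_jf (h.unit _)) t (K + i))
  have h2 : y * (1 - d + d * q ^ i) ≤ S (N + i) t := by
    by_contra hc
    exact absurd h1 (not_le.2 (iter_strict _ (h.unit _ t).1 (not_le.1 hc)
      (by linarith [(hmem i).2])))
  have : 0 ≤ y * (d * q ^ i) := mul_nonneg hy (mul_nonneg d0 (pow_nonneg q0 i))
  nlinarith

lemma Orbit.lower {S : ℕ → ℝ → ℝ} (h : Orbit S) {t : ℝ} (ht : S 0 t = 1) (n : ℕ) :
    3 / 20 ≤ S n t := by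
  have := h.trap (t := t) (y := 1 / 5) (q := 1 / 5) (d := 1 / 4) (K := 0) (N := 0) (by norm_num)
    le_rfl (by norm_num) (by norm_num) (by norm_num) (by simp [ht]; norm_num) n
  rw [zero_add] at this
  linarith

/-- A subsolution close to one far to the left is a fixed point. -/
lemma fixed_of_sub {X : ℝ → ℝ} (hu : Unit01 X) (hs : Sub X) (hsub : ∀ t, X t ≤ coStep (sqStep X) t)
    {T : ℝ} (hT : ∀ t ≤ T, 2 / 3 ≤ X t) (t : ℝ) : X (t + 1) = sqStep X t := by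
  set D : ℝ → ℝ := fun t => sqStep X t - X (t + 1) with hD
  have D0 : ∀ t, 0 ≤ D t := fun t => sub_nonneg.2 (hs t)
  have D1 : ∀ t, D t ≤ 1 := fun t => by
    have := (hu.sqStep t).2; have := (hu (t + 1)).1; simp only [hD]; linarith
  have hrec : ∀ t, D t ≤ (D (t - 2) + D t) * (1 - (X (t - 1) + X (t + 1)) / 2) := fun t => by
    have a1 := hsub (t - 1)
    have a2 := D0 (t - 2); have a3 := D0 t
    have b1 := (hu.sqStep (t - 2)).2; have b2 := (hu.sqStep t).2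
    unfold coStep at a1
    rw [show t - 1 - 1 = t - 2 by ring, show t - 1 + 1 = t by ring] at a1
    simp only [hD] at a2 a3 ⊢
    rw [show t - 2 + 1 = t - 1 by ring] at a2 ⊢
    have e : sqStep X t = ((X (t - 1) + X (t + 1)) / 2) ^ 2 := rfl
    generalize sqStep X (t - 2) = u at *
    generalize sqStep X t = v at *
    generalize X (t - 1) = x at *
    generalize X (t + 1) = z at *
    have c1 : 0 ≤ (u - x + (v - z)) / 2 := by linarith
    nlinarith [mul_nonneg c1 c1]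
  have low : ∀ m : ℕ, ∀ t ≤ T - 1, D t ≤ (1 / 2) ^ m := by
    intro m
    induction m with
    | zero => intro t _; simpa using D1 t
    | succ m ih =>
      intro t ht
      have a1 := hrec t
      have a2 := ih (t - 2) (by linarith)
      have a3 := hT (t - 1) (by linarith)
      have a4 := hT (t + 1) (by linarith)
      have a5 : (D (t - 2) + D t) * (1 - (X (t - 1) + X (t + 1)) / 2) ≤ (D (t - 2) + D t) * (1 / 3) :=
        mul_le_mul_of_nonneg_left (by linarith) (add_nonneg (D0 _) (D0 _))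
      rw [pow_succ]; linarith
  have hlim : Tendsto (fun m : ℕ => ((1 : ℝ) / 2) ^ m) atTop (𝓝 0) :=
    tendsto_pow_atTop_nhds_zero_of_lt_one (by norm_num) (by norm_num)
  have up : ∀ m : ℕ, ∀ t ≤ T - 1 + 2 * m, D t ≤ 0 := by
    intro m
    induction m with
    | zero => intro t ht; exact ge_of_tendsto' hlim fun m => low m t (by simpa using ht)
    | succ m ih =>
      intro t ht
      have a1 := hrec t
      have a2 := ih (t - 2) (by push_cast at ht; linarith)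
      have a3 : D (t - 2) = 0 := le_antisymm a2 (D0 _)
      rw [a3, zero_add] at a1
      have x0 := (hu (t - 1)).1; have z0 := (hu (t + 1)).1
      have e : D t = ((X (t - 1) + X (t + 1)) / 2) ^ 2 - X (t + 1) := rfl
      by_contra hc
      have hc := not_le.1 hc
      have : (X (t - 1) + X (t + 1)) / 2 ≤ 0 := by nlinarith
      have : (X (t - 1) + X (t + 1)) / 2 = 0 := by linarith
      rw [this] at e
      linarith
  obtain ⟨m, hm⟩ := exists_nat_ge ((t - (T - 1)) / 2)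
  have := le_antisymm (up m t (by linarith)) (D0 t)
  simp only [hD] at this
  linarith

/-- Convergence of a tight orbit. -/
theorem Orbit.converges {S : ℕ → ℝ → ℝ} (h : Orbit S) (hlo : ∀ n, ∀ t < 0, 3 / 20 ≤ S n t)
    (hhi : ∀ n, ∀ t, 2 ≤ t → S n t ≤ 17 / 20) :
    ∃ X : ℝ → ℝ, (∀ t, Tendsto (fun n => S n t) atTop (𝓝 (X t))) ∧
      Tendsto X atBot (𝓝 1) ∧ Tendsto X atTop (𝓝 0) := by
  set M : ℕ → ℝ → ℝ := fun N t => ⨆ n, S (N + n) t with hM
  have bdd : ∀ N t, BddAbove (range fun n => S (N + n) t) := fun N t =>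
    ⟨1, by rintro _ ⟨n, rfl⟩; exact (h.unit _ t).2⟩
  have leM : ∀ N n t, S (N + n) t ≤ M N t := fun N n t => le_ciSup (bdd N t) n
  have Mu : ∀ N, Unit01 (M N) := fun N t =>
    ⟨(h.unit _ t).1.trans (leM N 0 t), ciSup_le fun n => (h.unit _ t).2⟩
  have Manti : ∀ t, Antitone fun N => M N t := fun t => antitone_nat_of_succ_le fun N =>
    ciSup_le fun n => by rw [show N + 1 + n = N + (n + 1) by ring]; exact leM _ _ _
  set X : ℝ → ℝ := fun t => ⨅ N, M N t with hX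
  have bddM : ∀ t, BddBelow (range fun N => M N t) := fun t =>
    ⟨0, by rintro _ ⟨n, rfl⟩; exact (Mu _ t).1⟩
  have XM : ∀ N t, X t ≤ M N t := fun N t => ciInf_le (bddM t) N
  have MX : ∀ t, Tendsto (fun N => M N t) atTop (𝓝 (X t)) := fun t =>
    tendsto_atTop_ciInf (Manti t) (bddM t)
  have Xu : Unit01 X := fun t => ⟨le_ciInf fun N => (Mu N t).1, (XM 0 t).trans (Mu 0 t).2⟩
  have Mj : ∀ N t, M N (t + 2) ≤ jf (M N t) := fun N t => ciSup_le fun n =>
    ((h.sub _).le_jf (h.unit _) t).trans (jf_mono (h.unit _ _).1 (leM _ _ _) (Mu _ _).2)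
  have Ms : ∀ N, Sub (M N) := fun N t => by
    have := sq_of_le_jf (Mu N _) (Mu N _) (Mj N (t - 1))
    rwa [show t - 1 + 2 = t + 1 by ring] at this
  have Tsq : ∀ t, Tendsto (fun N => sqStep (M N) t) atTop (𝓝 (sqStep X t)) := fun t =>
    (((MX _).add (MX _)).div_const 2).pow 2
  have Xs : Sub X := fun t => le_of_tendsto_of_tendsto' (MX _) (Tsq t) fun N => Ms N t
  have Xsub : ∀ t, X t ≤ coStep (sqStep X) t := fun t => by
    have T2 : Tendsto (fun N => coStep (sqStep (M N)) t) atTop (𝓝 (coStep (sqStep X) t)) :=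
      (((((Tsq _).add (Tsq _)).div_const 2).const_sub 1).pow 2).const_sub 1
    refine ge_of_tendsto' T2 fun N => (XM (N + 1) t).trans (ciSup_le fun n => ?_)
    rw [show N + 1 + n = N + n + 1 by ring, h.step]
    have u := h.unit (N + n)
    exact co_mono ((Mu N).sqStep _).2 ((Mu N).sqStep _).2
      (sq_mono (u _).1 (u _).1 (leM _ _ _) (leM _ _ _))
      (sq_mono (u _).1 (u _).1 (leM _ _ _) (leM _ _ _))
  have Xlo : ∀ t < 0, 3 / 20 ≤ X t := fun t ht =>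
    le_ciInf fun N => (hlo _ t ht).trans (leM N 0 t)
  have Xhi : ∀ t, 2 ≤ t → X t ≤ 17 / 20 := fun t ht =>
    (XM 0 t).trans (ciSup_le fun n => hhi _ t ht)
  have Yu : Unit01 fun t => 1 - X (-t) := fun t =>
    ⟨by linarith [(Xu (-t)).2], by linarith [(Xu (-t)).1]⟩
  have Ys : Sub fun t => 1 - X (-t) := fun t => by
    have := Xs (-t)
    unfold sqStep at this ⊢
    beta_reduce
    rw [show -(t + 1) = -t - 1 by ring, show -(t - 1) = -t + 1 by ring]
    nlinarith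
  have hp : Tendsto (fun k : ℕ => (17 / 20 : ℝ) ^ (k + 1)) atTop (𝓝 0) :=
    (tendsto_pow_atTop_nhds_zero_of_lt_one (by norm_num) (by norm_num)).comp
      (tendsto_add_atTop_nat 1)
  have decay : ∀ Z : ℝ → ℝ, Unit01 Z → Sub Z → (∀ t, 2 ≤ t → Z t ≤ 17 / 20) →
      Tendsto Z atTop (𝓝 0) := fun Z Zu Zs hZ => by
    refine tendsto_order.2 ⟨fun a ha => Eventually.of_forall fun t => ha.trans_le (Zu t).1,
      fun a ha => ?_⟩
    obtain ⟨k, hk⟩ := (hp.eventually (gt_mem_nhds ha)).exists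
    filter_upwards [eventually_ge_atTop (2 + 2 * (k : ℝ))] with t ht
    have a1 := le_iter Zu (Zs.le_jf Zu) (t - 2 * k) k
    rw [sub_add_cancel] at a1
    exact (a1.trans ((iter_le_pow k (Zu _)).trans
      (pow_le_pow_left₀ (Zu _).1 (hZ _ (by linarith)) _))).trans_lt hk
  have Xtop : Tendsto X atTop (𝓝 0) := decay X Xu Xs Xhi
  have Xbot : Tendsto X atBot (𝓝 1) := by
    have := decay _ Yu Ys fun t ht => by linarith [Xlo (-t) (by linarith)]
    simpa using (this.comp tendsto_neg_atBot_atTop).const_sub 1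
  obtain ⟨T, hT⟩ := eventually_atBot.1 (Xbot.eventually (le_mem_nhds (by norm_num : (2 : ℝ) / 3 < 1)))
  have Xfix := fixed_of_sub Xu Xs Xsub hT
  have Xj : ∀ t, jf (X t) ≤ X (t + 2) := fun t => by
    have := Xfix (t + 1)
    unfold sqStep at this
    rw [show t + 1 + 1 = t + 2 by ring, show t + 1 - 1 = t by ring] at this
    exact jf_le (Xu _) (Xu _) this.ge
  have Xit : ∀ t (k : ℕ), jf^[k] (X t) ≤ X (t + 2 * k) := fun t k => by
    induction k with
    | zero => simp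
    | succ k ih =>
      rw [Function.iterate_succ_apply', show t + 2 * ((k + 1 : ℕ) : ℝ) = t + 2 * k + 2 by
        push_cast; ring]
      exact (jf_mono (iter_mem k (Xu t)).1 ih (Xu _).2).trans (Xj _)
  have Xlt : ∀ t, X t < 1 := fun t => by
    by_contra hc
    have e : X t = 1 := le_antisymm (Xu t).2 (not_lt.1 hc)
    obtain ⟨k, hk⟩ := exists_nat_ge ((2 - t) / 2)
    have a1 := Xit t k
    have a2 := Xhi (t + 2 * k) (by linarith)
    rw [e, Function.iterate_fixed (by simp [jf])] at a1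
    linarith
  refine ⟨X, fun t => tendsto_order.2 ⟨fun a ha => ?_, fun a ha => ?_⟩, Xbot, Xtop⟩
  · rcases lt_or_ge a 0 with a0 | a0
    · exact Eventually.of_forall fun n => a0.trans_le (h.unit n t).1
    obtain ⟨y, hy1, hy2⟩ := exists_between ha
    have y0 : 0 < y := a0.trans_lt hy1
    have y1 : y < 1 := hy2.trans (Xlt t)
    obtain ⟨d, d0, d1, hd⟩ : ∃ d : ℝ, 0 < d ∧ d ≤ 1 ∧ a < y * (1 - d) :=
      ⟨(y - a) / 2, by linarith, by linarith, by nlinarith⟩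
    have hq : Tendsto (fun k : ℕ => y ^ (k + 1)) atTop (𝓝 0) :=
      (tendsto_pow_atTop_nhds_zero_of_lt_one y0.le y1).comp (tendsto_add_atTop_nat 1)
    obtain ⟨K, hK⟩ := (hq.eventually (ge_mem_nhds (mul_pos d0 (sub_pos.2 y1)))).exists
    obtain ⟨N, hN⟩ := exists_lt_of_lt_ciSup
      ((iter_strict K y0.le hy2 (Xu t).2).trans_le ((Xit t K).trans (XM 0 _)))
    filter_upwards [eventually_ge_atTop (0 + N)] with n hn
    obtain ⟨i, rfl⟩ := Nat.exists_eq_add_of_le hn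
    exact hd.trans_le (h.trap y0.le le_rfl y1 hK d1 hN.le i)
  · obtain ⟨N, hN⟩ := ((MX t).eventually (gt_mem_nhds ha)).exists
    filter_upwards [eventually_ge_atTop N] with n hn
    obtain ⟨i, rfl⟩ := Nat.exists_eq_add_of_le hn
    exact (leM N i t).trans_lt hN

end Pool.Agent.MP_a87fbc_pr
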