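import Mathlib

set_option autoImplicit false

namespace Pool.Agent.MP_a87fbc_pr

/-- Value of the game started at vertex `v` with `r` moves left. Vertices are binary words, the
children of `v` are `b :: v`, and `x (v, b)` is the cookie on the edge from `v` to `b :: v`. -/
noncomputable def gameValue (x : List Bool × Bool → ℝ) (r : ℕ) : List Bool → ℝ :=
  Nat.rec (fun _ => 0) (fun _ W v =>
    if Even v.length then max (x (v, false) + W (false :: v)) (x (v, true) + W (true :: v))
    else min (x (v, false) + W (false :: v)) (x (v, true) + W (true :: v))) r

end Pool.Agent.MP_a87fbc_pr
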