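import Pool.Agent.MP_a87fbc_pr.Defs
import Pool.Agent.MP_a87fbc_pr.Analysis

set_option autoImplicit false

open Filter Topology Set MeasureTheory ProbabilityTheory

namespace Pool.Agent.MP_a87fbc_pr

/-- distribution function of the value with `r` moves left at a vertex of height `l` -/
noncomputable def cdfH : ℕ → ℕ → ℝ → ℝ
  | 0, _ => fun t => if 0 ≤ t then 1 else 0
  | r + 1, l => if Even l then sqStep (cdfH r (l + 1)) else coStep (cdfH r (l + 1))

lemma cdfH_add_two (r l : ℕ) : cdfH r (l + 2) = cdfH r l := by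
  induction r generalizing l with
  | zero => rfl
  | succ r ih =>
    have e : Even (l + 2) ↔ Even l := by simp [Nat.even_add]
    simp only [cdfH, e, show l + 2 + 1 = l + 1 + 2 by ring, ih]

lemma cdfH_step (n : ℕ) : cdfH (2 * (n + 1)) 0 = sqStep (coStep (cdfH (2 * n) 0)) := by
  rw [show 2 * (n + 1) = 2 * n + 1 + 1 by ring, ← cdfH_add_two (2 * n) 0]
  simp [cdfH]

lemma cdfH_floor (r l : ℕ) (t : ℝ) : cdfH r l t = cdfH r l ⌊t⌋ := by
  induction r generalizing l t with
  | zero =>
    have : (0 : ℝ) ≤ (⌊t⌋ : ℤ) ↔ 0 ≤ t := by rw [Int.cast_nonneg_iff, Int.floor_nonneg]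
    simp only [cdfH, this]
  | succ r ih =>
    have e1 : cdfH r (l + 1) (t - 1) = cdfH r (l + 1) (⌊t⌋ - 1) := by
      rw [ih _ (t - 1), ih _ (⌊t⌋ - 1)]; simp
    have e2 : cdfH r (l + 1) (t + 1) = cdfH r (l + 1) (⌊t⌋ + 1) := by
      rw [ih _ (t + 1), ih _ (⌊t⌋ + 1)]; simp
    by_cases h : Even l <;> simp only [cdfH, h, if_true, if_false, sqStep, coStep, e1, e2]

lemma cdf_converges : ∃ F : ℝ → ℝ, (∀ t, Tendsto (fun n => cdfH (2 * n) 0 t) atTop (𝓝 (F t))) ∧
    Tendsto F atBot (𝓝 0) ∧ Tendsto F atTop (𝓝 1) := by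
  have o1 : Orbit fun n t => 1 - cdfH (2 * n) 0 t := by
    refine ⟨fun t => ?_, fun t => ?_, fun n => funext fun t => ?_⟩
    · simp only [cdfH]; split_ifs <;> simp
    · simp only [cdfH, sqStep]
      split_ifs with h1 h2 h2 <;> norm_num
      exact h1 (by linarith)
    · simp only [cdfH_step, sqStep, coStep]; ring
  have u0 : Unit01 fun t => cdfH 0 0 (-t) := fun t => by simp only [cdfH]; split_ifs <;> simp
  have s0 : Sub fun t => cdfH 0 0 (-t) := fun t => by
    simp only [cdfH, sqStep]
    split_ifs with h1 h2 h2 <;> norm_num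
    exact h2 (by linarith)
  have wstep : ∀ n, (fun t => cdfH (2 * (n + 1)) 0 (-t))
      = sqStep (coStep fun t => cdfH (2 * n) 0 (-t)) := fun n => funext fun t => by
    simp only [cdfH_step, sqStep, coStep]
    ring_nf
  have w : ∀ n, (Unit01 fun t => cdfH (2 * n) 0 (-t)) ∧ Sub fun t => cdfH (2 * n) 0 (-t) := by
    intro n
    induction n with
    | zero => exact ⟨u0, s0⟩
    | succ n ih =>
      rw [wstep]
      exact ⟨ih.1.coStep.sqStep, (ih.2.coStep ih.1).sqStep ih.1.coStep⟩
  have o2 : Orbit fun n => coStep fun t => cdfH (2 * n) 0 (-t) :=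
    ⟨u0.coStep, s0.coStep u0, fun n => by rw [wstep]⟩
  obtain ⟨X, h1, h2, h3⟩ := o1.converges
    (fun n t ht => o1.lower (by simp [cdfH, ht]) n) (fun n t ht => by
      have a1 := o2.lower (t := 1 - t) (by
        have b1 : 0 ≤ -(1 - t - 1) := by linarith
        have b2 : 0 ≤ -(1 - t + 1) := by linarith
        simp only [coStep, cdfH, b1, b2, if_true]; norm_num) n
      have a2 := sub_iff.1 (w n).2 (1 - t)
      simp only [show -(1 - t - 1) = t by ring] at a2
      linarith)
  refine ⟨fun t => 1 - X t, fun t => ?_, ?_, ?_⟩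
  · simpa using (h1 t).const_sub 1
  · simpa using h2.const_sub 1
  · simpa using h3.const_sub 1

section
variable {Ω : Type*} [mΩ : MeasurableSpace Ω] {P : Measure Ω} [IsProbabilityMeasure P]

lemma real_add_le {A W : Ω → ℝ} (hA : Measurable A) (hW : Measurable W) (hi : IndepFun A W P)
    (h1 : P {ω | A ω = 1} = 1 / 2) (h2 : P {ω | A ω = -1} = 1 / 2) (t : ℝ) :
    P.real {ω | A ω + W ω ≤ t} = (P.real {ω | W ω ≤ t - 1} + P.real {ω | W ω ≤ t + 1}) / 2 := by
  have m1 : MeasurableSet {ω | A ω = 1} := hA (measurableSet_singleton _)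
  have m2 : MeasurableSet {ω | A ω = -1} := hA (measurableSet_singleton _)
  have dj : Disjoint {ω | A ω = 1} {ω | A ω = -1} := by
    rw [Set.disjoint_left]; intro ω a b
    simp only [mem_ofPred_eq] at a b; linarith
  have hae : ∀ᵐ ω ∂P, ω ∈ {ω | A ω = 1} ∪ {ω | A ω = -1} := by
    change ({ω | A ω = 1} ∪ {ω | A ω = -1}) ∈ ae P
    rw [mem_ae_iff_prob_eq_one (m1.union m2), measure_union dj m2, h1, h2, ENNReal.add_halves]
  have e : {ω | A ω + W ω ≤ t} =ᵐ[P] (({ω | A ω = 1} ∩ {ω | W ω ≤ t - 1}) ∪
      ({ω | A ω = -1} ∩ {ω | W ω ≤ t + 1}) : Set Ω) := by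
    rw [eventuallyEq_set]
    filter_upwards [hae] with ω hω
    simp only [mem_ofPred_eq, mem_union, mem_inter_iff] at hω ⊢
    rcases hω with h | h <;> rw [h] <;> constructor <;> intro h' <;> grind
  have i1 : P ({ω | A ω = 1} ∩ {ω | W ω ≤ t - 1}) = P {ω | A ω = 1} * P {ω | W ω ≤ t - 1} :=
    hi.measure_inter_preimage_eq_mul {1} (Iic (t - 1)) (measurableSet_singleton _) measurableSet_Iic
  have i2 : P ({ω | A ω = -1} ∩ {ω | W ω ≤ t + 1}) = P {ω | A ω = -1} * P {ω | W ω ≤ t + 1} :=
    hi.measure_inter_preimage_eq_mul {-1} (Iic (t + 1)) (measurableSet_singleton _)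
      measurableSet_Iic
  have m3 : MeasurableSet {ω | W ω ≤ t + 1} := hW measurableSet_Iic
  rw [measureReal_congr e, measureReal_union (dj.mono inter_subset_left inter_subset_left)
    (m2.inter m3)]
  simp only [Measure.real, i1, i2, h1, h2, ENNReal.toReal_mul]
  norm_num
  ring

/-- edges below a vertex -/
def below (v : List Bool) : Set (List Bool × Bool) := {e | v <:+ e.1}

/-- the sigma-algebra generated by the cookies of a set of edges -/
@[reducible] def gen (X : List Bool × Bool → Ω → ℝ) (S : Set (List Bool × Bool)) :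
    MeasurableSpace Ω :=
  ⨆ i ∈ S, MeasurableSpace.comap (X i) inferInstance

omit mΩ in
lemma gen_meas (X : List Bool × Bool → Ω → ℝ) {S : Set (List Bool × Bool)} {e : List Bool × Bool}
    (he : e ∈ S) : Measurable[gen X S] (X e) :=
  measurable_iff_comap_le.2 (le_iSup₂_of_le e he le_rfl)

omit mΩ in
lemma value_meas (X : List Bool × Bool → Ω → ℝ) (r : ℕ) (v : List Bool)
    {S : Set (List Bool × Bool)} (hS : below v ⊆ S) :
    Measurable[gen X S] fun ω => gameValue (fun e => X e ω) r v := by
  induction r generalizing v with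
  | zero => exact measurable_const
  | succ r ih =>
    let _ : MeasurableSpace Ω := gen X S
    have a : ∀ b, Measurable fun ω => X (v, b) ω + gameValue (fun e => X e ω) r (b :: v) :=
      fun b => (gen_meas X (hS (List.suffix_refl v))).add
        (ih (b :: v) fun e he => hS ((List.suffix_cons b v).trans he))
    by_cases h : Even v.length
    · simpa only [gameValue, h, if_true] using (a false).max (a true)
    · simpa only [gameValue, h, if_false] using (a false).min (a true)

variable {X : List Bool × Bool → Ω → ℝ} (hX : ∀ e, Measurable (X e)) (hi : iIndepFun X P)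
  (h1 : ∀ e, P {ω | X e ω = 1} = 1 / 2) (h2 : ∀ e, P {ω | X e ω = -1} = 1 / 2)

include hX in
lemma gen_le (S : Set (List Bool × Bool)) : gen X S ≤ mΩ :=
  iSup₂_le fun i _ => (hX i).comap_le

include hX in
lemma value_measurable (r : ℕ) (v : List Bool) :
    Measurable fun ω => gameValue (fun e => X e ω) r v :=
  (value_meas X r v (S := univ) (subset_univ _)).mono (gen_le hX _) le_rfl

omit [IsProbabilityMeasure P] in
include hX hi in
lemma gen_indep {S T : Set (List Bool × Bool)} (h : Disjoint S T) {A B : Ω → ℝ}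
    (hA : Measurable[gen X S] A) (hB : Measurable[gen X T] B) : IndepFun A B P :=
  (IndepFun_iff_Indep _ _ _).2 (indep_of_indep_of_le
    (indep_iSup_of_disjoint (fun i => (hX i).comap_le) hi.iIndep h) hA.comap_le hB.comap_le)

include hX hi h1 h2 in
lemma cdf_value (r : ℕ) (v : List Bool) (t : ℝ) :
    P.real {ω | gameValue (fun e => X e ω) r v ≤ t} = cdfH r v.length t := by
  induction r generalizing v t with
  | zero =>
    by_cases h : 0 ≤ t <;> simp [gameValue, cdfH, h]
  | succ r ih =>
    set Y : Bool → Ω → ℝ := fun b ω => X (v, b) ω + gameValue (fun e => X e ω) r (b :: v) with hY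
    have nb : ∀ b c, (v, c) ∉ below (b :: v) := fun b c h => by
      have := List.IsSuffix.length_le h
      simp at this
    have Yl : ∀ b, P.real {ω | Y b ω ≤ t}
        = (cdfH r (v.length + 1) (t - 1) + cdfH r (v.length + 1) (t + 1)) / 2 := fun b => by
      rw [real_add_le (hX _) (value_measurable hX r _) (gen_indep hX hi
        (disjoint_singleton_left.2 (nb b b)) (gen_meas X (mem_singleton _))
        (value_meas X r _ Subset.rfl)) (h1 _) (h2 _), ih, ih, List.length_cons]
    have Ym : ∀ b, Measurable[gen X (insert (v, b) (below (b :: v)))] (Y b) := fun b => by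
      let _ : MeasurableSpace Ω := gen X (insert (v, b) (below (b :: v)))
      exact (gen_meas X (mem_insert _ _)).add (value_meas X r _ (subset_insert _ _))
    have Ym' : ∀ b, Measurable (Y b) := fun b => (Ym b).mono (gen_le hX _) le_rfl
    have dj : Disjoint (insert (v, false) (below (false :: v)))
        (insert (v, true) (below (true :: v))) := by
      rw [Set.disjoint_left]
      rintro e (rfl | a) (b | b)
      · simp at b
      · exact nb _ _ b
      · exact nb _ _ (b ▸ a)
      · have := (List.suffix_of_suffix_length_le a b (by simp)).eq_of_length (by simp)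
        simp at this
    have hYi := gen_indep hX hi dj (Ym false) (Ym true)
    by_cases h : Even v.length
    · have e : {ω | gameValue (fun e => X e ω) (r + 1) v ≤ t}
          = Y false ⁻¹' Iic t ∩ Y true ⁻¹' Iic t := by
        ext ω; simp [gameValue, h, hY]
      rw [e, Measure.real, hYi.measure_inter_preimage_eq_mul _ _ measurableSet_Iic
        measurableSet_Iic, ENNReal.toReal_mul]
      simp only [cdfH, h, if_true, sqStep, sq]
      exact congrArg₂ _ (Yl false) (Yl true)
    · have e : {ω | gameValue (fun e => X e ω) (r + 1) v ≤ t}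
          = (Y false ⁻¹' (Iic t)ᶜ ∩ Y true ⁻¹' (Iic t)ᶜ)ᶜ := by
        ext ω; simp [gameValue, h, hY, or_iff_not_imp_left]
      have c : ∀ b, (P (Y b ⁻¹' (Iic t)ᶜ)).toReal
          = 1 - (cdfH r (v.length + 1) (t - 1) + cdfH r (v.length + 1) (t + 1)) / 2 := fun b => by
        rw [← Yl b, preimage_compl]
        exact probReal_compl_eq_one_sub (Ym' b measurableSet_Iic)
      rw [e, probReal_compl_eq_one_sub ((Ym' _ measurableSet_Iic.compl).inter
        (Ym' _ measurableSet_Iic.compl)), Measure.real,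
        hYi.measure_inter_preimage_eq_mul _ _ measurableSet_Iic.compl
        measurableSet_Iic.compl, ENNReal.toReal_mul, c, c]
      simp only [cdfH, h, if_false, coStep, sq]

include hX hi h1 h2 in
theorem main : ∃ (μ : Measure ℝ) (_ : IsProbabilityMeasure μ),
    TendstoInDistribution (fun (n : ℕ) ω => gameValue (fun e => X e ω) (2 * n) []) atTop id
      (fun _ => P) μ := by
  obtain ⟨F, hF, hb, ht⟩ := cdf_converges
  have hc : ∀ n t, P.real {ω | gameValue (fun e => X e ω) (2 * n) [] ≤ t} = cdfH (2 * n) 0 t :=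
    fun n t => cdf_value hX hi h1 h2 _ _ t
  have mono : Monotone F := fun s t hst => le_of_tendsto_of_tendsto' (hF s) (hF t) fun n => by
    rw [← hc, ← hc]
    exact measureReal_mono fun ω hω => le_trans hω hst
  have fl : ∀ t, F t = F ⌊t⌋ := fun t =>
    tendsto_nhds_unique (hF t) ((hF _).congr fun n => (cdfH_floor _ _ t).symm)
  have rc : ∀ t, ContinuousWithinAt F (Ici t) t := fun t => by
    refine (continuousWithinAt_const (b := F t)).congr_of_eventuallyEq ?_ rfl
    filter_upwards [self_mem_nhdsWithin,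
      mem_nhdsWithin_of_mem_nhds (Iio_mem_nhds (Int.lt_floor_add_one t))] with s a b
    rw [fl s, fl t, Int.floor_eq_iff.2 ⟨(Int.floor_le t).trans a, b⟩]
  let G : StieltjesFunction ℝ := ⟨F, mono, rc⟩
  have hG : IsProbabilityMeasure G.measure := G.isProbabilityMeasure hb ht
  refine ⟨G.measure, hG, fun n => (value_measurable hX _ _).aemeasurable, aemeasurable_id, ?_⟩
  refine (isPiSystem_Ioc (id : ℝ → ℝ) (id : ℝ → ℝ)).tendsto_probabilityMeasure_of_tendsto_of_mem
    ?_ ?_ ?_
  · rintro _ ⟨a, b, -, rfl⟩; exact measurableSet_Ioc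
  · intro u hu x hx
    obtain ⟨a, b, ⟨ha, hb⟩, hs⟩ := mem_nhds_iff_exists_Ioo_subset.1 (hu.mem_nhds hx)
    obtain ⟨c, hc1, hc2⟩ := exists_between hb
    exact ⟨Ioc a c, ⟨a, c, ha.trans hc1, rfl⟩, Ioc_mem_nhds ha hc1,
      (Ioc_subset_Ioo_right hc2).trans hs⟩
  · rintro _ ⟨a, b, hab, rfl⟩
    rw [← NNReal.tendsto_coe]
    have hab' : a ≤ b := le_of_lt hab
    convert (hF b).sub (hF a) using 2 with n
    · have hm := value_measurable hX (2 * n) []
      change ((P.map _) (Ioc a b)).toReal = _
      rw [Measure.map_apply hm measurableSet_Ioc, ← hc, ← hc, ← Iic_sdiff_Iic, preimage_sdiff]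
      exact measureReal_sdiff (preimage_mono (Iic_subset_Iic.2 hab')) (hm measurableSet_Iic)
    · change ((G.measure.map id) (Ioc a b)).toReal = _
      rw [Measure.map_id, G.measure_Ioc, ENNReal.toReal_ofReal (sub_nonneg.2 (G.mono hab'))]

end

end Pool.Agent.MP_a87fbc_pr
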